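import Pool.Agent.TH222.RG.Step

set_option autoImplicit false

/-!
The colours for double covers by five even subgraphs such that a given circuit lies in the class
zero: the codes below 10 are the pairs of classes; the codes below 4 are the pairs with the class 0.
-/

namespace Pool.Agent.Y425.SC

/-- packed table of the 24 symmetries -/
def PTT : ℕ := 0x8539909004430000000000000000000000000000872a0c9080430000000000000000000000000000a439928008230000000000000000000000000000a7224c8100230000000000000000000000000000e42a126088030000000000000000000000000000e52250610403000000000000000000000000000086414e90046200000000000000000000000000008831ca9080620000000000000000000000000000c44152700c220000000000000000000000000000c8224a71802200000000000000000000000000010431d2508c02000000000000000000000000000106224e5184020000000000000000000000000000a6490e8008610000000000000000000000000000a931c88100610000000000000000000000000000c54910700c410000000000000000000000000000c92a0871804100000000000000000000000000012531d0410c010000000000000000000000000001262a0e4188010000000000000000000000000000e8490a6088600000000000000000000000000000e94148610460000000000000000000000000000107490c508c400000000000000000000000000001093988518440000000000000000000000000000127414c410c20000000000000000000000000000128398a418820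

/-- packed table of the inverse permutations of the classes -/
def RHO : ℕ := 0x29c05460b5018982e206341170231865410a6198842d04cc0a161a30445870a1194138428c86a111321c444688

/-- packed table of the 10 masks -/
def MS : ℕ := 0x314649468a4a3

def pt (g c : ℕ) : ℕ := Nat.land (Nat.shiftRight PTT (Nat.add (Nat.mul 160 g) (Nat.mul 5 c))) 31

def rho (g i : ℕ) : ℕ := Nat.land (Nat.shiftRight RHO (Nat.add (Nat.mul 15 g) (Nat.mul 3 i))) 7

def ms (c : ℕ) : ℕ := Nat.land (Nat.shiftRight MS (Nat.mul 5 c)) 31

noncomputable def xr (k : ℕ) (f : ℕ → ℕ) : ℕ := Nat.rec 0 (fun j ih => Nat.xor (f j) ih) k

end Pool.Agent.Y425.SC
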