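import Pool.Agent.Y425.SC.Stp

set_option autoImplicit false
set_option linter.unusedVariables false
set_option linter.unusedSectionVars false
set_option linter.unusedSimpArgs false

/-!
The double covers with a prescribed circuit: one vertex is added, the induction along the line.
-/

open Finset
open Pool.Agent.Helper347.Sab (MGraph dg)

namespace Pool.Agent.Y425.SC

open Pool.Agent.TH697.CW6 (Tch cut tch_iff cut_iff mem_ends_iff tch_of_cut cut_insert cut_of_tch
  tch_insert allB anyB tb dig full rem allB_iff anyB_iff tb_eq full_testBit rem_testBit exists_mask)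
open Pool.Agent.TH222.RG
open Pool.Agent.Y425.CW (gr net ov net_sum_cut pts_sum_eq mem_gr)

variable {V E : Type} [Fintype V] [DecidableEq V] [Fintype E] [DecidableEq E]

theorem tbl_cases (BB : List (List ST)) (T0 : ST) (i : ℕ) :
    (∃ B ∈ BB, (BB.getD (Nat.div i 16) []).getD (Nat.mod i 16) T0 ∈ B) ∨
      (BB.getD (Nat.div i 16) []).getD (Nat.mod i 16) T0 = T0 := by
  rcases Pool.Agent.Y425.CW.getD_cases BB (Nat.div i 16) [] with h | h
  · rcases Pool.Agent.Y425.CW.getD_cases (BB.getD (Nat.div i 16) []) (Nat.mod i 16) T0 with h' | h'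
    · exact Or.inl ⟨_, h, h'⟩
    · exact Or.inr h'
  · right
    rw [h]
    simp

variable {G : MGraph V E} {r : ℕ} {X : Finset V} {k : ℕ} {o : ℕ → E} {v : V} {lm m : ℕ} {n : ℕ → E}
  {S : Finset E}

theorem clo_cases {lm q : ℕ} (hlm : lm < 256) (hq : q % 2 = 0) (h : clo lm q = true) :
    ∃ p, 2 * p + 1 < q ∧ lm.testBit (2 * p) = true ∧ lm.testBit (2 * p + 1) = true := by
  have hJ : jm lm q < 256 := lt_of_le_of_lt Nat.and_le_left hlm
  unfold clo at h
  rw [Bool.not_eq_true'] at h
  have h1 : Nat.land (jm lm q) (sw8 (jm lm q)) ≠ 0 := by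
    intro h2
    rw [(beq_iff _ _).2 h2] at h
    exact absurd h (by simp)
  obtain ⟨i, hi⟩ := Nat.exists_testBit_of_ne_zero h1
  have e1 : Nat.land (jm lm q) (sw8 (jm lm q)) = (jm lm q) &&& (sw8 (jm lm q)) := rfl
  rw [e1, Nat.testBit_and, Bool.and_eq_true] at hi
  obtain ⟨h2, h3⟩ := hi
  have hi8 : i < 8 := by
    by_contra h4
    rw [testBit_of_lt256 hJ (by omega)] at h2
    exact absurd h2 (by simp)
  rw [sw8_spec _ hJ i hi8] at h3
  rw [jm_testBit] at h2 h3
  have h5 := xor_one i (i / 2) (by omega)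
  refine ⟨i / 2, by omega, ?_, ?_⟩
  · rcases Nat.mod_two_eq_zero_or_one i with h6 | h6
    · rw [show 2 * (i / 2) = i by omega]; exact h2.1
    · rw [show 2 * (i / 2) = i ^^^ 1 by omega]; exact h3.1
  · rcases Nat.mod_two_eq_zero_or_one i with h6 | h6
    · rw [show 2 * (i / 2) + 1 = i ^^^ 1 by omega]; exact h3.1
    · rw [show 2 * (i / 2) + 1 = i by omega]; exact h2.1

/-- the union of the strands that are joined to the new vertex -/
theorem Lk_pm {q : ℕ} (hlm : lm < 256) (hq : q % 2 = 0)
    (lnk : ∀ i, 2 * i + 1 < q → Lk G S X o k (3 <<< (2 * i))) :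
    Lk G S X o k (jm lm q ||| sw8 (jm lm q)) := by
  have hJ : jm lm q < 256 := lt_of_le_of_lt Nat.and_le_left hlm
  rw [pm_spec _ hJ]
  have key : ∀ p, Lk G S X o k
      (cond ((jm lm q).testBit (2 * p) || (jm lm q).testBit (2 * p + 1)) (3 <<< (2 * p)) 0) := by
    intro p
    cases h : ((jm lm q).testBit (2 * p) || (jm lm q).testBit (2 * p + 1))
    · exact Lk_zero
    · rw [cond_true]
      apply lnk
      rw [Bool.or_eq_true, jm_testBit, jm_testBit] at h
      omega
  exact Lk.xor (Lk.xor (key 0) (key 1)) (Lk.xor (key 2) (key 3))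

/-- the strands of the new set -/
theorem lnk_step (C : Ctx G r X k o v lm m n) {k' c q q' b : ℕ} (P : Prt k lm m k' c)
    (hq : q % 2 = 0) (hqk : q ≤ k) (hb : b ≤ m) (hbS : ∀ j < m, (n j ∈ S ↔ j < b))
    (lnk : ∀ i, 2 * i + 1 < q → Lk G S X o k (3 <<< (2 * i)))
    (heven : (pc8 (jm lm q) + b) % 2 = 0) (hq' : q' ≤ k')
    (h : linkB lm q b q' c = true) (i : ℕ) (hi : 2 * i + 1 < q') :
    Lk G S (insert v X) (fun i => sr o n (dig c i)) k' (3 <<< (2 * i)) := by
  have hlm := C.lm256
  have hJ : jm lm q < 256 := lt_of_le_of_lt Nat.and_le_left hlm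
  have hPlm : ∀ j < k', dig c j < 8 → lm.testBit (dig c j) = false := by
    intro j hj h8
    rcases P.p1 j hj with h1 | h1
    · exact h1.2
    · omega
  unfold linkB at h
  rw [allB_iff] at h
  have e0 : Nat.shiftRight q' 1 = q' / 2 := Nat.shiftRight_eq_div_pow q' 1
  have h1 := h i (by rw [e0]; omega)
  simp only [Bool.or_eq_true, anyB_iff] at h1
  have hM : ∀ z, (Nat.lor (Nat.shiftLeft 1 (dig c (Nat.mul 2 i)))
      (Nat.shiftLeft 1 (dig c (Nat.succ (Nat.mul 2 i))))).testBit z = true ↔
      z = dig c (2 * i) ∨ z = dig c (2 * i + 1) := fun z => two_testBit _ _ z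
  rcases h1 with h1 | ⟨p, hp, h1⟩
  · -- the strand through v
    rw [beq_iff] at h1
    rw [h1] at hM
    have hthr : ∀ j < k', ((thr lm q b).testBit (dig c j) = true ↔
        (dig c j < 8 ∧ (jm lm q ||| sw8 (jm lm q)).testBit (dig c j) = true) ∨
        (8 ≤ dig c j ∧ dig c j < 8 + b)) := by
      intro j hj
      have e1 : thr lm q b = (rem (sw8 (jm lm q)) (jm lm q)) ||| ((full b) <<< 8) := rfl
      rw [e1, Nat.testBit_or, rem_testBit, Nat.testBit_shiftLeft, full_testBit, Nat.testBit_or]
      by_cases h8 : dig c j < 8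
      · have h2 : (jm lm q).testBit (dig c j) = false := by
          rw [← Bool.not_eq_true, jm_testBit, hPlm j hj h8]
          simp
        rw [h2]
        have h3 : ¬ (dig c j ≥ 8) := by omega
        simp [h8, h3]
      · have h2 : (sw8 (jm lm q)).testBit (dig c j) = false :=
          testBit_of_lt256 (sw8_lt _ hJ) (by omega)
        rw [h2]
        have h3 : dig c j ≥ 8 := by omega
        simp only [h8, h3, Bool.false_and, Bool.false_or, decide_true, Bool.true_and,
          decide_eq_true_eq, false_and, false_or, true_and]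
        omega
    refine Lk_step C P (Lk_pm hlm hq lnk) hb (fun j hj => (hbS j (by omega)).2 hj) ?_ ?_ ?_
    · intro j hj
      rw [Nat.testBit_or, Bool.or_eq_true, jm_testBit] at hj
      rcases hj with hj | hj
      · omega
      · have hj8 : j < 8 := by
          by_contra h4
          rw [testBit_of_lt256 (sw8_lt _ hJ) (by omega)] at hj
          exact absurd hj (by simp)
        rw [sw8_spec _ hJ j hj8, jm_testBit] at hj
        have h5 := xor_one j (j / 2) (by omega)
        omega
    · have e2 : Nat.land (jm lm q ||| sw8 (jm lm q)) lm = jm lm q := by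
        apply Nat.eq_of_testBit_eq
        intro j
        have e3 : Nat.land (jm lm q ||| sw8 (jm lm q)) lm = (jm lm q ||| sw8 (jm lm q)) &&& lm := rfl
        rw [e3, Nat.testBit_and, Nat.testBit_or]
        cases hl : lm.testBit j
        · have : (jm lm q).testBit j = false := by
            rw [← Bool.not_eq_true, jm_testBit, hl]; simp
          rw [this]; simp
        · rw [Bool.and_true]
          cases hj : (jm lm q).testBit j
          · rw [Bool.false_or]
            rw [← Bool.not_eq_true, jm_testBit, hl] at hj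
            by_cases hj8 : j < 8
            · rw [sw8_spec _ hJ j hj8, ← Bool.not_eq_true, jm_testBit]
              have h5 := xor_one j (j / 2) (by omega)
              rintro ⟨_, h6⟩
              exact hj ⟨rfl, by omega⟩
            · exact testBit_of_lt256 (sw8_lt _ hJ) (by omega)
          · simp
      rw [e2, Nat.even_iff]
      exact heven
    · intro j hj
      rw [three_testBit, ← hthr j hj, hM]
      constructor
      · rintro (h2 | h2)
        · rw [h2]; exact Or.inl rfl
        · rw [h2]; exact Or.inr rfl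
      · rintro (h2 | h2)
        · exact Or.inl (P.p3 j hj _ (by omega) h2)
        · exact Or.inr (P.p3 j hj _ (by omega) h2)
  · -- an old strand
    rw [beq_iff] at h1
    rw [h1] at hM
    have e1 : Nat.shiftRight q 1 = q / 2 := Nat.shiftRight_eq_div_pow q 1
    rw [e1] at hp
    have hM' : ∀ z, (z = 2 * p ∨ z = 2 * p + 1) ↔ (z = dig c (2 * i) ∨ z = dig c (2 * i + 1)) := by
      intro z
      rw [← hM z, ← three_testBit]
      rfl
    have hdig : ∀ j < k', (j = 2 * i ∨ j = 2 * i + 1 ↔ dig c j = 2 * p ∨ dig c j = 2 * p + 1) := by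
      intro j hj
      rw [hM']
      constructor
      · rintro (h2 | h2)
        · rw [h2]; exact Or.inl rfl
        · rw [h2]; exact Or.inr rfl
      · rintro (h2 | h2)
        · exact Or.inl (P.p3 j hj _ (by omega) h2)
        · exact Or.inr (P.p3 j hj _ (by omega) h2)
    have hk := C.hk
    have hnot : ∀ z, (z = 2 * p ∨ z = 2 * p + 1) → lm.testBit z = false := by
      intro z hz
      have h2 := (hM' z).1 hz
      have hz8 : z < 8 := by omega
      rcases h2 with h2 | h2
      · rw [h2]; exact hPlm (2 * i) (by omega) (by omega)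
      · rw [h2]; exact hPlm (2 * i + 1) (by omega) (by omega)
    refine Lk_step C P (lnk p (by omega)) (Nat.zero_le _) (fun j hj => absurd hj (Nat.not_lt_zero _))
      ?_ ?_ ?_
    · intro j hj
      rw [three_testBit] at hj
      omega
    · have e2 : Nat.land (3 <<< (2 * p)) lm = 0 := by
        apply Nat.eq_of_testBit_eq
        intro j
        have e3 : Nat.land (3 <<< (2 * p)) lm = (3 <<< (2 * p)) &&& lm := rfl
        rw [e3, Nat.testBit_and, Nat.zero_testBit]
        cases hj : (3 <<< (2 * p)).testBit j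
        · simp
        · rw [three_testBit] at hj
          rw [hnot j hj]; simp
      rw [e2]
      decide
    · intro j hj
      rw [three_testBit, hdig j hj, three_testBit]
      constructor
      · intro h2
        exact Or.inl ⟨by omega, h2⟩
      · rintro (h2 | h2)
        · exact h2.2
        · omega

variable {s t : E → V} {hst : ∀ e, s e ≠ t e}

/-- one step -/
theorem step {w : ℕ} (e0 : E)
    (hreg : ∀ v, dg (gr s t hst) univ v = 3)
    (hodd : ∀ Y : Finset V, Odd Y.card → 3 ≤ (cut (gr s t hst) Y).card)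
    (hS2 : ∀ v, dg (gr s t hst) S v = 0 ∨ dg (gr s t hst) S v = 2)
    (hmin : ∀ Q ⊆ S, Q.Nonempty → (∀ w, Even (dg (gr s t hst) Q w)) → Q = S)
    (tbl : ℕ → ST) (hok : ∀ i, ∃ es, chkST w tbl (tbl i) es = true)
    {i0 : ℕ} {o : ℕ → E} (I : InvS s t hst S X (tbl i0) o) (hv : v ∉ X)
    (hw : (cut (gr s t hst) (insert v X)).card ≤ w) :
    ∃ i1 o', InvS s t hst S (insert v X) (tbl i1) o' := by
  obtain ⟨es, hes⟩ := hok i0
  unfold chkST at hes
  simp only [Bool.and_eq_true, allB_iff, List.all_eq_true] at hes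
  obtain ⟨hes1, hes2, hes3⟩ := hes
  have O := okS_spec hes1
  have IP : Pts (gr s t hst) X (tbl i0).bt.k o := I.inv.pts
  obtain ⟨lm, m, b, n, C, hbm, hbS⟩ := exists_ctxS (r := 3) e0 (hreg v) O.hk IP hv S
  have hlt : lm < 2 ^ (tbl i0).bt.k := lm_lt C
  have hr := C.hr
  have hdS : dg (gr s t hst) S v = pc8 (jm lm (tbl i0).s) + b := dgS C hbm hbS I.ons
  -- the number of new ports
  have hcl : pc8 lm = ((cut (gr s t hst) X).filter fun e => v ∈ (gr s t hst).ends e).card := by
    apply C.pts.card_ports C.hk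
    · exact filter_subset _ _
    · intro i
      rw [C.hlm i, mem_filter]
      constructor
      · rintro ⟨h1, h2⟩; exact ⟨h1, C.pts.mem i h1, h2⟩
      · rintro ⟨h1, _, h2⟩; exact ⟨h1, h2⟩
  have hcm : (univ.filter fun e => v ∈ (gr s t hst).ends e ∧ e ∉ cut (gr s t hst) X).card = m := by
    have : (univ.filter fun e => v ∈ (gr s t hst).ends e ∧ e ∉ cut (gr s t hst) X) =
        (range m).image n := by
      ext e
      rw [mem_filter, mem_image]
      constructor
      · rintro ⟨_, h1, h2⟩
        obtain ⟨q, hq, h⟩ := C.hns e h1 h2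
        exact ⟨q, mem_range.2 hq, h⟩
      · rintro ⟨q, hq, h⟩
        rw [← h]
        exact ⟨mem_univ _, C.hn q (mem_range.1 hq)⟩
    rw [this, card_image_of_injOn, card_range]
    intro i hi j hj hij
    rw [mem_coe, mem_range] at hi hj
    exact C.hni i hi j hj hij
  have hc4 : (cut (gr s t hst) (insert v X)).card =
      ((cut (gr s t hst) X).filter fun e => v ∉ (gr s t hst).ends e).card + m := by
    rw [← hcm, ← card_union_of_disjoint]
    · congr 1
      ext e
      rw [cut_insert C.hv]
      simp only [mem_union, mem_filter, mem_univ, true_and]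
    · rw [disjoint_left]
      intro e h1 h2
      rw [mem_filter] at h1 h2
      exact h2.2.2 h1.1
  have hc5 : ((cut (gr s t hst) X).filter fun e => v ∈ (gr s t hst).ends e).card +
      ((cut (gr s t hst) X).filter fun e => v ∉ (gr s t hst).ends e).card = (tbl i0).bt.k := by
    rw [card_filter_add_card_filter_not, C.pts.card_cut]
  have hpat : patB 3 w (tbl i0).bt.k lm = true := by
    unfold patB
    rw [Bool.and_eq_true, ble_iff, ble_iff]
    have e1 : Nat.add (tbl i0).bt.k 3 = (tbl i0).bt.k + 3 := rfl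
    have e2 : Nat.add w (Nat.mul 2 (pc8 lm)) = w + 2 * pc8 lm := rfl
    rw [e1, e2]
    omega
  have hsh : lm < Nat.shiftLeft 1 (tbl i0).bt.k := by
    have e : Nat.shiftLeft 1 (tbl i0).bt.k = 1 <<< (tbl i0).bt.k := rfl
    rw [e, Nat.one_shiftLeft]; exact hlt
  have h3 := hes3 lm hsh
  have hex1 : exclB 3 (tbl i0).bt lm = false :=
    C.not_exclB (t := ⟨(tbl i0).bt.k, (tbl i0).bt.par, 0, 0, (tbl i0).bt.fs⟩) I.inv hodd O.hfs
  -- the circuit is closed
  have hclo : clo lm (tbl i0).s = true → (tbl i0).s = 2 ∧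
      ∀ e ∈ S, ∀ w ∈ (gr s t hst).ends e, w ∈ insert v X := by
    intro h
    obtain ⟨p, hp, hp0, hp1⟩ := clo_cases C.lm256 O.h2 h
    have hpk : 2 * p + 1 < (tbl i0).bt.k := lt_of_lt_of_le hp O.hs
    obtain ⟨g1, g2⟩ := closing C (I.lnk p hp) hpk hp0 hp1 hmin
    refine ⟨?_, g2⟩
    by_contra hne
    have h2 := O.h2
    have hsk := O.hs
    obtain ⟨i, hi, hi2⟩ : ∃ i < (tbl i0).s, ¬ (i = 2 * p ∨ i = 2 * p + 1) := by
      by_cases hp' : p = 0
      · exact ⟨2, by omega, by omega⟩
      · exact ⟨0, by omega, by omega⟩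
    have h5 := (I.ons i (by omega)).2 hi
    exact hi2 ((g1 i (by omega)).1 h5)
  have hex : exclS (tbl i0) lm b = false := by
    unfold exclS
    rw [hex1, Bool.false_or]
    have e1 : Nat.add (pc8 (jm lm (tbl i0).s)) b = dg (gr s t hst) S v := by rw [hdS]; rfl
    have e2 : (!(Nat.beq (Nat.add (pc8 (jm lm (tbl i0).s)) b) 0 ||
        Nat.beq (Nat.add (pc8 (jm lm (tbl i0).s)) b) 2)) = false := by
      rw [e1]
      rcases hS2 v with h | h <;> rw [h] <;> rfl
    rw [e2, Bool.false_or, Bool.or_eq_false_iff]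
    constructor
    · cases hcl' : (tbl i0).cl
      · rfl
      · rw [Bool.true_and]
        cases hb0 : Nat.blt 0 b
        · rfl
        · rw [blt_iff] at hb0
          exfalso
          have h5 := (hbS 0 (by omega)).2 hb0
          have h6 := (C.hn 0 (by omega)).1
          exact hv (I.cls hcl' _ h5 v h6)
    · cases hcl' : clo lm (tbl i0).s
      · rfl
      · rw [(hclo hcl').1]
        rfl
  have hb3 : Nat.ble (Nat.add b (pc8 lm)) 3 = true := by
    rw [ble_iff]
    have e1 : Nat.add b (pc8 lm) = b + pc8 lm := rfl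
    rw [e1]
    omega
  rw [hpat, cond_true, allB_iff] at h3
  have h3 := h3 b (by omega)
  rw [hb3, cond_true, Bool.or_eq_true, hex, List.any_eq_true] at h3
  rcases h3 with h3 | ⟨e, he, hel⟩
  · exact absurd h3 (by simp)
  rw [Bool.and_eq_true, beq_iff, beq_iff] at hel
  obtain ⟨hel1, hel2⟩ := hel
  have hce := hes2 e he
  obtain ⟨es1, hes1'⟩ := hok e.ti
  unfold chkST at hes1'
  rw [Bool.and_eq_true] at hes1'
  have O1 := okS_spec hes1'.1
  unfold chkE at hce
  rw [hel1, hel2] at hce
  refine ⟨e.ti, fun i => sr o n (dig e.c i), ?_⟩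
  revert hce O1
  generalize tbl e.ti = t1
  obtain ⟨⟨k', par', n', st', fs'⟩, q', cl'⟩ := t1
  intro hce O1
  dsimp only at hce
  simp only [Bool.and_eq_true, List.all_eq_true] at hce
  obtain ⟨g1, g2, g3, g4, g5, g6, g7, g8⟩ := hce
  have P := C.prt (by norm_num) g3
  have hons : ∀ i < k', (sr o n (dig e.c i) ∈ S ↔ i < q') := by
    intro i hi
    unfold portsC at g5
    rw [allB_iff] at g5
    have h5 := g5 i hi
    have h6 : i < q' ↔ (cond (Nat.blt (dig e.c i) 8) (Nat.blt (dig e.c i) (tbl i0).s)
        (Nat.blt (dig e.c i) (Nat.add 8 b))) = true := by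
      rw [← blt_iff i q']
      revert h5
      generalize (cond (Nat.blt (dig e.c i) 8) (Nat.blt (dig e.c i) (tbl i0).s)
        (Nat.blt (dig e.c i) (Nat.add 8 b))) = y
      cases Nat.blt i q' <;> cases y <;> simp [xorB]
    rw [h6]
    rcases C.src_cases (P.p1 i hi) with ⟨h8, hxk, hs1, hs2, hs3⟩ | ⟨h8, hxr, hs1, hs2, hs3⟩
    · rw [hs1, (blt_iff _ _).2 h8, cond_true, blt_iff]
      exact I.ons _ hxk
    · have h9 : Nat.blt (dig e.c i) 8 = false := by
        rw [← Bool.not_eq_true, blt_iff]; exact h8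
      rw [hs1, h9, cond_false, blt_iff, hbS _ hxr]
      have e1 : Nat.add 8 b = 8 + b := rfl
      rw [e1]
      omega
  have hq'k : q' ≤ k' := O1.hs
  refine ⟨⟨C.newPts P, ?_, ?_, ?_⟩, hons, ?_, ?_, ?_⟩
  · have hp := I.inv.par
    dsimp only at hp ⊢
    rw [card_insert_of_notMem C.hv, Nat.odd_add_one, ← hp]
    revert g2
    cases (tbl i0).bt.par <;> cases par' <;> simp [xorB]
  · intro Q hQ
    exact C.factB_spec (t := ⟨(tbl i0).bt.k, (tbl i0).bt.par, 0, 0, (tbl i0).bt.fs⟩) I.inv O.hfs P
      (g4 Q hQ)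
  · intro j hj
    exact absurd hj (Nat.not_lt_zero _)
  · intro i hi
    refine lnk_step C P O.h2 O.hs hbm hbS I.lnk ?_ hq'k g6 i hi
    rw [← hdS]
    rcases hS2 v with h | h <;> rw [h]
  · intro hc
    dsimp only at hc
    rw [hc, cond_true, Bool.or_eq_true] at g7
    rcases g7 with g7 | g7
    · intro e' he' w' hw'
      exact mem_insert_of_mem (I.cls g7 e' he' w' hw')
    · exact (hclo g7).2
  · intro j hj
    unfold statesS at g8
    rw [allB_iff] at g8
    have := g8 j hj
    simp only at this
    generalize Nat.land (Nat.shiftRight e.ws (Nat.mul 20 j)) 1048575 = ww at this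
    cases hc : Nat.blt (Nat.shiftRight ww 8) (tbl i0).bt.n
    · rw [hc, cond_false] at this; exact absurd this (by simp)
    rw [hc, cond_true] at this
    cases hg : Nat.blt (Nat.land ww 255) 24
    · rw [hg, cond_false] at this; exact absurd this (by simp)
    rw [hg, cond_true] at this
    rw [blt_iff] at hc hg
    obtain ⟨f, hf, hfo⟩ := I.sts _ hc
    obtain ⟨f1, hf1, hfo1⟩ := act (o := o) hg hf (fun i hi => O.hc _ hc i hi) hfo
    unfold stOK at this
    rw [allB_iff] at this
    refine state_step C P (BS_neg S) hf1 (fun i => val (cd st' j i)) ?_ (O1.hz j hj) ?_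
    · intro i hi
      refine ⟨_, O1.hc j hj i hi, ?_, rfl⟩
      intro hS'
      exact O1.hc4 j hj i ((hons i hi).1 hS')
    · intro i hi h8
      have h9 := this i hi
      rw [(blt_iff _ _).2 h8, cond_true, beq_iff] at h9
      have h10 : dig e.c i < (tbl i0).bt.k := by
        rcases C.src_cases (P.p1 i hi) with ⟨_, h, _⟩ | ⟨h, _⟩
        · exact h
        · exact absurd h8 h
      rw [hfo1 _ h10, h9]

theorem cubicS {w : ℕ}
    (hreg : ∀ v, dg (gr s t hst) univ v = 3)
    (hbr : ∀ Y : Finset V, (cut (gr s t hst) Y).card ≠ 1)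
    (hS2 : ∀ v, dg (gr s t hst) S v = 0 ∨ dg (gr s t hst) S v = 2)
    (hmin : ∀ Q ⊆ S, Q.Nonempty → (∀ w, Even (dg (gr s t hst) Q w)) → Q = S)
    (hw : ∃ f : V → ℕ, Function.Injective f ∧
      ∀ T, (cut (gr s t hst) (univ.filter fun v => f v < T)).card ≤ w)
    (tbl : ℕ → ST) (hok : ∀ i, ∃ es, chkST w tbl (tbl i) es = true)
    (hpos : ∀ i, 0 < (tbl i).bt.n) (hk0 : (tbl 0).bt.k = 0) (hp0 : (tbl 0).bt.par = false)
    (hf0 : (tbl 0).bt.fs = []) (hs0 : (tbl 0).s = 0) (hc0 : (tbl 0).cl = false) :
    ∃ f, FlB (BS S) s t f (univ : Finset V) := by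
  rcases isEmpty_or_nonempty E with hE | hE
  · refine ⟨fun _ => 0, fun e => isEmptyElim e, fun v _ => ?_⟩
    unfold net
    rw [Finset.univ_eq_empty, sum_empty]
  obtain ⟨e0⟩ := hE
  have hodd : ∀ Y : Finset V, Odd Y.card → 3 ≤ (cut (gr s t hst) Y).card := by
    intro Y hY
    have h1 := Pool.Agent.Y425.CW.parity _ hreg Y
    have h2 := hbr Y
    rw [Nat.odd_iff] at hY
    omega
  obtain ⟨f, hf, hcut⟩ := hw
  have main : ∀ T, ∃ i o, InvS s t hst S (univ.filter fun v => f v < T) (tbl i) o := by
    intro T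
    induction T with
    | zero =>
      have h0 : (univ.filter fun v => f v < 0) = (∅ : Finset V) := by
        rw [filter_eq_empty_iff]; intro v _; omega
      rw [h0]
      refine ⟨0, fun _ => e0, ⟨⟨⟨?_, ?_, ?_⟩, ?_, ?_, ?_⟩, ?_, ?_, ?_, ?_⟩⟩
      · intro i hi
        exact absurd (hk0 ▸ hi : i < 0) (Nat.not_lt_zero _)
      · intro e he
        obtain ⟨w, hw, _⟩ := tch_of_cut he
        exact absurd hw (notMem_empty _)
      · intro i hi
        exact absurd (hk0 ▸ hi : i < 0) (Nat.not_lt_zero _)
      · dsimp only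
        rw [hp0]; simp
      · dsimp only
        intro P hP; rw [hf0] at hP; exact absurd hP List.not_mem_nil
      · intro j hj
        exact absurd hj (Nat.not_lt_zero _)
      · intro i hi
        exact absurd (hk0 ▸ hi : i < 0) (Nat.not_lt_zero _)
      · intro i hi
        exact absurd (hs0 ▸ hi : 2 * i + 1 < 0) (Nat.not_lt_zero _)
      · intro h
        rw [hc0] at h
        exact absurd h (by simp)
      · intro j hj
        refine ⟨fun _ => val 0, ⟨fun e => ⟨0, by norm_num, fun _ => by norm_num, rfl⟩,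
          fun v hv => absurd hv (notMem_empty _)⟩, fun i hi => ?_⟩
        exact absurd (hk0 ▸ hi : i < 0) (Nat.not_lt_zero _)
    | succ T ih =>
      obtain ⟨i, o, I⟩ := ih
      by_cases h : ∃ v, f v = T
      · obtain ⟨v, hv⟩ := h
        have h1 : (univ.filter fun w => f w < T + 1) = insert v (univ.filter fun w => f w < T) := by
          ext w
          rw [mem_insert, mem_filter, mem_filter]
          constructor
          · rintro ⟨_, h⟩
            rcases Nat.lt_succ_iff_lt_or_eq.1 h with h | h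
            · exact Or.inr ⟨mem_univ _, h⟩
            · left; apply hf; rw [h, hv]
          · rintro (h | ⟨_, h⟩)
            · subst h; exact ⟨mem_univ _, by omega⟩
            · exact ⟨mem_univ _, by omega⟩
        have hvX : v ∉ (univ.filter fun w => f w < T) := by
          rw [mem_filter, hv]; rintro ⟨_, h⟩; omega
        have hc := hcut (T + 1)
        rw [h1] at hc
        obtain ⟨i1, o1, I1⟩ := step e0 hreg hodd hS2 hmin tbl hok I hvX hc
        refine ⟨i1, o1, ?_⟩
        rw [h1]
        exact I1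
      · have h1 : (univ.filter fun w => f w < T + 1) = (univ.filter fun w => f w < T) := by
          apply filter_congr
          intro w _
          constructor
          · intro h'
            rcases Nat.lt_succ_iff_lt_or_eq.1 h' with h' | h'
            · exact h'
            · exact absurd ⟨w, h'⟩ h
          · intro h'; omega
        rw [h1]
        exact ⟨i, o, I⟩
  obtain ⟨i, o, I⟩ := main (univ.sup f + 1)
  have hu : (univ.filter fun v => f v < univ.sup f + 1) = (univ : Finset V) := by
    rw [filter_eq_self]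
    intro v hv
    exact Nat.lt_succ_of_le (le_sup (f := f) hv)
  rw [hu] at I
  obtain ⟨f', hf', _⟩ := I.sts 0 (hpos i)
  exact ⟨f', hf'⟩

end Pool.Agent.Y425.SC
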