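import Pool.Agent.Y425.SC.Sys
import Pool.Agent.Y425.CW.Cub

set_option autoImplicit false
set_option linter.unusedVariables false
set_option linter.unusedSectionVars false
set_option linter.unusedSimpArgs false

/-!
Strands of the circuit inside a set of vertices, and one step for flows with prescribed sets of
values of the edges.
-/

open Finset
open Pool.Agent.Helper347.Sab (MGraph dg)

namespace Pool.Agent.Y425.SC

open Pool.Agent.TH697.CW6 (Tch cut tch_iff cut_iff mem_ends_iff tch_of_cut cut_insert cut_of_tch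
  tch_insert allB anyB tb dig full rem allB_iff anyB_iff tb_eq full_testBit rem_testBit exists_mask)
open Pool.Agent.TH222.RG
open Pool.Agent.Y425.CW (gr net ov net_sum_cut pts_sum_eq mem_gr)

variable {V E : Type} [Fintype V] [DecidableEq V] [Fintype E] [DecidableEq E]

/-- a part of S, even at the vertices in X, made of edges meeting X, with the ports m -/
def Lk (G : MGraph V E) (S : Finset E) (X : Finset V) (o : ℕ → E) (k m : ℕ) : Prop :=
  ∃ D ⊆ S, (∀ w ∈ X, Even (dg G D w)) ∧ (∀ e ∈ D, Tch G X e) ∧
    ∀ i < k, (o i ∈ D ↔ m.testBit i = true)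

variable {G : MGraph V E} {r : ℕ} {X : Finset V} {k : ℕ} {o : ℕ → E} {v : V} {lm m : ℕ} {n : ℕ → E}
  {S : Finset E}

theorem Lk_zero : Lk G S X o k 0 := by
  refine ⟨∅, empty_subset _, ?_, ?_, ?_⟩
  · intro w _
    unfold dg
    rw [filter_empty, card_empty]
    exact Even.zero
  · intro e he
    exact absurd he (notMem_empty _)
  · intro i _
    simp

theorem dg_symm (D1 D2 : Finset E) (w : V) (h1 : Even (dg G D1 w)) (h2 : Even (dg G D2 w)) :
    Even (dg G ((D1 \ D2) ∪ (D2 \ D1)) w) := by
  unfold dg at *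
  have h3 : (((D1 \ D2) ∪ (D2 \ D1)).filter fun e => w ∈ G.ends e) =
      ((D1.filter fun e => w ∈ G.ends e) \ (D2.filter fun e => w ∈ G.ends e)) ∪
      ((D2.filter fun e => w ∈ G.ends e) \ (D1.filter fun e => w ∈ G.ends e)) := by
    ext e
    simp only [mem_filter, mem_union, mem_sdiff]
    tauto
  rw [h3, card_union_of_disjoint]
  · have h4 := card_sdiff_add_card_inter (D1.filter fun e => w ∈ G.ends e)
      (D2.filter fun e => w ∈ G.ends e)
    have h5 := card_sdiff_add_card_inter (D2.filter fun e => w ∈ G.ends e)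
      (D1.filter fun e => w ∈ G.ends e)
    rw [inter_comm] at h5
    rw [Nat.even_iff] at *
    omega
  · rw [disjoint_left]
    intro e he he'
    rw [mem_sdiff] at he he'
    exact he.2 he'.1

theorem Lk.xor {m1 m2 : ℕ} (h1 : Lk G S X o k m1) (h2 : Lk G S X o k m2) :
    Lk G S X o k (m1 ^^^ m2) := by
  obtain ⟨D1, a1, b1, c1, d1⟩ := h1
  obtain ⟨D2, a2, b2, c2, d2⟩ := h2
  refine ⟨(D1 \ D2) ∪ (D2 \ D1), ?_, ?_, ?_, ?_⟩
  · intro e he
    rw [mem_union, mem_sdiff, mem_sdiff] at he
    rcases he with he | he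
    · exact a1 he.1
    · exact a2 he.1
  · intro w hw
    exact dg_symm D1 D2 w (b1 w hw) (b2 w hw)
  · intro e he
    rw [mem_union, mem_sdiff, mem_sdiff] at he
    rcases he with he | he
    · exact c1 e he.1
    · exact c2 e he.1
  · intro i hi
    rw [mem_union, mem_sdiff, mem_sdiff, d1 i hi, d2 i hi, Nat.testBit_xor]
    cases m1.testBit i <;> cases m2.testBit i <;> simp

theorem Lk_step (C : Ctx G r X k o v lm m n) {k' c : ℕ} (P : Prt k lm m k' c) {m0 b0 m' : ℕ}
    (hL : Lk G S X o k m0) (hb : b0 ≤ m) (hS : ∀ q < b0, n q ∈ S)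
    (hm0 : ∀ i, m0.testBit i = true → i < k)
    (heven : Even (pc8 (Nat.land m0 lm) + b0))
    (hm' : ∀ i < k', (m'.testBit i = true ↔ (dig c i < 8 ∧ m0.testBit (dig c i) = true) ∨
      (8 ≤ dig c i ∧ dig c i < 8 + b0))) :
    Lk G S (insert v X) (fun i => sr o n (dig c i)) k' m' := by
  obtain ⟨D, hD1, hD2, hD3, hD4⟩ := hL
  obtain ⟨N, hN⟩ : ∃ N : Finset E, ∀ e, e ∈ N ↔ ∃ q < b0, n q = e :=
    ⟨(range b0).image n, fun e => by rw [mem_image]; simp⟩
  have hNt : ∀ e ∈ N, ¬ Tch G X e := by
    intro e he
    obtain ⟨q, hq, rfl⟩ := (hN e).1 he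
    exact C.ntch (by omega)
  have hNv : ∀ e ∈ N, v ∈ G.ends e := by
    intro e he
    obtain ⟨q, hq, rfl⟩ := (hN e).1 he
    exact (C.hn q (by omega)).1
  have hdis : Disjoint D N := by
    rw [disjoint_left]
    intro e h1 h2
    exact hNt e h2 (hD3 e h1)
  refine ⟨D ∪ N, ?_, ?_, ?_, ?_⟩
  · intro e he
    rw [mem_union] at he
    rcases he with he | he
    · exact hD1 he
    · obtain ⟨q, hq, rfl⟩ := (hN e).1 he
      exact hS q hq
  · intro w hw
    rw [mem_insert] at hw
    rcases hw with rfl | hw
    · have h1 : dg G (D ∪ N) w = pc8 (Nat.land m0 lm) + b0 := by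
        unfold dg
        rw [filter_union, card_union_of_disjoint (disjoint_filter_filter hdis)]
        congr 1
        · symm
          apply C.pts.card_ports C.hk
          · intro e he
            rw [mem_filter] at he
            exact cut_of_tch C.hv (hD3 e he.1) he.2
          · intro i
            have e1 : Nat.land m0 lm = m0 &&& lm := rfl
            rw [e1, Nat.testBit_and, Bool.and_eq_true, C.hlm, mem_filter]
            constructor
            · rintro ⟨h1, h2, h3⟩
              exact ⟨h2, (hD4 i h2).2 h1, h3⟩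
            · rintro ⟨h1, h2, h3⟩
              exact ⟨(hD4 i h1).1 h2, h1, h3⟩
        · have h2 : (N.filter fun e => w ∈ G.ends e) = (range b0).image n := by
            ext e
            rw [mem_filter, hN, mem_image]
            constructor
            · rintro ⟨⟨q, hq, h⟩, _⟩
              exact ⟨q, mem_range.2 hq, h⟩
            · rintro ⟨q, hq, h⟩
              have hq' := mem_range.1 hq
              exact ⟨⟨q, hq', h⟩, by rw [← h]; exact (C.hn q (by omega)).1⟩
          rw [h2, card_image_of_injOn, card_range]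
          intro q hq q' hq' h
          rw [mem_coe, mem_range] at hq hq'
          exact C.hni q (by omega) q' (by omega) h
      rw [h1]
      exact heven
    · have h1 : dg G (D ∪ N) w = dg G D w := by
        unfold dg
        congr 1
        ext e
        rw [mem_filter, mem_filter, mem_union]
        constructor
        · rintro ⟨h1 | h1, h2⟩
          · exact ⟨h1, h2⟩
          · exact absurd ⟨w, hw, h2⟩ (hNt e h1)
        · rintro ⟨h1, h2⟩
          exact ⟨Or.inl h1, h2⟩
      rw [h1]
      exact hD2 w hw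
  · intro e he
    rw [mem_union] at he
    rw [tch_insert]
    rcases he with he | he
    · exact Or.inl (hD3 e he)
    · exact Or.inr (hNv e he)
  · intro i hi
    beta_reduce
    rw [hm' i hi, mem_union]
    rcases C.src_cases (P.p1 i hi) with ⟨h6, hxk, hs1, hs2, hs3⟩ | ⟨h6, hxr, hs1, hs2, hs3⟩
    · rw [hs1]
      have h1 : o (dig c i) ∉ N := fun h => hs3 (hNv _ h)
      have h2 := hD4 _ hxk
      constructor
      · rintro (h | h)
        · exact Or.inl ⟨h6, h2.1 h⟩
        · exact absurd h h1
      · rintro (h | h)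
        · exact Or.inl (h2.2 h.2)
        · omega
    · rw [hs1]
      have h1 : n (dig c i - 8) ∉ D := by
        intro h
        exact C.ntch hxr (hD3 _ h)
      rw [hN]
      constructor
      · rintro (h | ⟨q, hq, h⟩)
        · exact absurd h h1
        · right
          have := C.hni q (by omega) _ hxr h
          omega
      · rintro (h | h)
        · omega
        · exact Or.inr ⟨dig c i - 8, by omega, rfl⟩

/-- new edges with the edges of S first -/
theorem exists_ctxS (e0 : E) (hd : dg G univ v = r) (hk : k ≤ 8) (I : Pts G X k o) (hv : v ∉ X)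
    (S : Finset E) : ∃ (lm m b : ℕ) (n : ℕ → E), Ctx G r X k o v lm m n ∧ b ≤ m ∧
      ∀ q < m, (n q ∈ S ↔ q < b) := by
  obtain ⟨lm, m, n, C⟩ := exists_ctx e0 hd hk I hv
  obtain ⟨n1, a1, b1, c1⟩ := exists_enum' (((range m).image n) ∩ S) e0
  obtain ⟨n2, a2, b2, c2⟩ := exists_enum' (((range m).image n) \ S) e0
  have hcard : (((range m).image n) ∩ S).card + (((range m).image n) \ S).card = m := by
    rw [add_comm, card_sdiff_add_card_inter, card_image_of_injOn, card_range]
    intro q hq q' hq' h
    rw [mem_coe, mem_range] at hq hq'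
    exact C.hni q hq q' hq' h
  obtain ⟨b, hb⟩ : ∃ b, b = (((range m).image n) ∩ S).card := ⟨_, rfl⟩
  rw [← hb] at a1 b1 c1 hcard
  have hn' : ∀ q < m, (if q < b then n1 q else n2 (q - b)) ∈ (range m).image n := by
    intro q hq
    split_ifs with h
    · exact (mem_inter.1 (a1 q h)).1
    · exact (mem_sdiff.1 (a2 (q - b) (by omega))).1
  refine ⟨lm, m, b, fun q => if q < b then n1 q else n2 (q - b), ⟨C.pts, C.hk, C.hv, C.hlm, ?_, ?_,
    ?_, C.hr, C.hdeg⟩, by omega, ?_⟩
  · intro q hq
    obtain ⟨q', hq', h⟩ := mem_image.1 (hn' q hq)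
    beta_reduce
    rw [← h]
    exact C.hn q' (mem_range.1 hq')
  · intro e h1 h2
    obtain ⟨q, hq, h⟩ := C.hns e h1 h2
    have hmem : e ∈ (range m).image n := mem_image.2 ⟨q, mem_range.2 hq, h⟩
    by_cases hS : e ∈ S
    · obtain ⟨q', hq', h'⟩ := b1 e (mem_inter.2 ⟨hmem, hS⟩)
      refine ⟨q', by omega, ?_⟩
      rw [if_pos hq']; exact h'
    · obtain ⟨q', hq', h'⟩ := b2 e (mem_sdiff.2 ⟨hmem, hS⟩)
      refine ⟨b + q', by omega, ?_⟩
      rw [if_neg (by omega), show b + q' - b = q' by omega]; exact h'
  · intro q hq q' hq' h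
    beta_reduce at h
    by_cases h1 : q < b <;> by_cases h2 : q' < b
    · rw [if_pos h1, if_pos h2] at h
      exact c1 q h1 q' h2 h
    · rw [if_pos h1, if_neg h2] at h
      have h3 := (mem_inter.1 (a1 q h1)).2
      rw [h] at h3
      exact absurd h3 (mem_sdiff.1 (a2 (q' - b) (by omega))).2
    · rw [if_neg h1, if_pos h2] at h
      have h3 := (mem_inter.1 (a1 q' h2)).2
      rw [← h] at h3
      exact absurd h3 (mem_sdiff.1 (a2 (q - b) (by omega))).2
    · rw [if_neg h1, if_neg h2] at h
      have := c2 (q - b) (by omega) (q' - b) (by omega) h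
      omega
  · intro q hq
    beta_reduce
    split_ifs with h
    · exact iff_of_true (mem_inter.1 (a1 q h)).2 h
    · exact iff_of_false (mem_sdiff.1 (a2 (q - b) (by omega))).2 h

variable {Γ : Type} [AddCommGroup Γ]

/-- f has values in the sets B and is conserved in X -/
def FlB (B : E → Set Γ) (s t : E → V) (f : E → Γ) (X : Finset V) : Prop :=
  (∀ e, f e ∈ B e) ∧ ∀ v ∈ X, net s t f v = 0

variable {s t : E → V} {hst : ∀ e, s e ≠ t e} {B : E → Set Γ}

theorem state_step (C : Ctx (gr s t hst) r X k o v lm m n) {k' c : ℕ}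
    (P : Prt k lm m k' c) (hB : ∀ e, ∀ x ∈ B e, - x ∈ B e) {f : E → Γ} (hf : FlB B s t f X)
    (σ : ℕ → Γ)
    (hσ : ∀ i < k', σ i ∈ B (sr o n (dig c i))) (h0 : ∑ i ∈ range k', σ i = 0)
    (hold : ∀ i < k', dig c i < 8 → σ i = ov s X f (o (dig c i))) :
    ∃ f', FlB B s t f' (insert v X) ∧
      ∀ i < k', ov s (insert v X) f' (sr o n (dig c i)) = σ i := by
  classical
  obtain ⟨f', hf'⟩ : ∃ f' : E → Γ, ∀ e, f' e = if Tch (gr s t hst) X e then f e else
      if h : ∃ i, i < k' ∧ sr o n (dig c i) = e then
        (if s e = v then σ h.choose else - σ h.choose) else f e := ⟨_, fun e => rfl⟩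
  have hT : ∀ e, Tch (gr s t hst) X e → f' e = f e := by
    intro e he; rw [hf', if_pos he]
  have hport : ∀ i < k', ov s (insert v X) f' (sr o n (dig c i)) = σ i := by
    intro i hi
    rcases C.src_cases (P.p1 i hi) with ⟨h6, hxk, hs1, hs2, hs3⟩ | ⟨h6, hxr, hs1, hs2, hs3⟩
    · rw [hs1, hold i hi h6]
      rw [mem_gr] at hs3
      push Not at hs3
      unfold ov
      rw [hT _ (tch_of_cut hs2)]
      have : s (o (dig c i)) ∈ insert v X ↔ s (o (dig c i)) ∈ X := by
        rw [mem_insert]
        constructor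
        · rintro (h | h)
          · exact absurd h.symm hs3.1
          · exact h
        · exact Or.inr
      simp only [this]
    · have hnt : ¬ Tch (gr s t hst) X (sr o n (dig c i)) := by rw [hs1]; exact C.ntch hxr
      have hex : ∃ i', i' < k' ∧ sr o n (dig c i') = sr o n (dig c i) := ⟨i, hi, rfl⟩
      have hch : hex.choose = i := by
        have h1 := hex.choose_spec
        exact P.p3 _ h1.1 i hi (C.src_inj (P.p1 _ h1.1) (P.p1 i hi) h1.2)
      have hval : f' (sr o n (dig c i)) = if s (sr o n (dig c i)) = v then σ i else - σ i := by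
        rw [hf', if_neg hnt, dif_pos hex, hch]
      rw [← hs1, mem_gr] at hs3
      unfold ov
      rw [hval]
      have hnX : s (sr o n (dig c i)) ∉ X := by
        intro h
        exact hnt ((tch_iff (G := gr s t hst) (a := s (sr o n (dig c i)))
          (b := t (sr o n (dig c i))) rfl X).2 (Or.inl h))
      by_cases hsv : s (sr o n (dig c i)) = v
      · rw [if_pos hsv, if_pos (by rw [hsv]; exact mem_insert_self _ _)]
      · rw [if_neg hsv, if_neg (by rw [mem_insert]; tauto), neg_neg]
  refine ⟨f', ⟨?_, ?_⟩, hport⟩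
  · intro e
    rw [hf']
    split_ifs with h1 h2 h3
    · exact hf.1 e
    · have h4 := hσ _ h2.choose_spec.1
      rw [h2.choose_spec.2] at h4
      exact h4
    · have h4 := hσ _ h2.choose_spec.1
      rw [h2.choose_spec.2] at h4
      exact hB _ _ h4
    · exact hf.1 e
  · have hX : ∀ w ∈ X, net s t f' w = 0 := by
      intro w hw
      rw [← hf.2 w hw]
      unfold net
      refine sum_congr rfl fun e _ => ?_
      by_cases h1 : Tch (gr s t hst) X e
      · rw [hT e h1]
      · have h2 : s e ≠ w := by
          rintro rfl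
          exact h1 ((tch_iff (G := gr s t hst) (a := s e) (b := t e) rfl X).2 (Or.inl hw))
        have h3 : t e ≠ w := by
          rintro rfl
          exact h1 ((tch_iff (G := gr s t hst) (a := s e) (b := t e) rfl X).2 (Or.inr hw))
        rw [if_neg h2, if_neg h3, if_neg h2, if_neg h3]
    intro w hw
    rw [mem_insert] at hw
    rcases hw with hw | hw
    · subst hw
      have h1 := net_sum_cut hst f' (insert w X)
      rw [sum_insert C.hv, sum_eq_zero hX, add_zero, pts_sum_eq (C.newPts P)] at h1
      rw [h1, ← h0]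
      exact sum_congr rfl fun i hi => hport i (mem_range.1 hi)
    · exact hX w hw

end Pool.Agent.Y425.SC
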