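import Pool.Agent.Y425.SC.Lk

set_option autoImplicit false
set_option linter.unusedVariables false
set_option linter.unusedSectionVars false
set_option linter.unusedSimpArgs false

/-!
One step for the double covers with a prescribed circuit.
-/

open Finset
open Pool.Agent.Helper347.Sab (MGraph dg)

namespace Pool.Agent.Y425.SC

open Pool.Agent.TH697.CW6 (Tch cut tch_iff cut_iff mem_ends_iff tch_of_cut cut_insert cut_of_tch
  tch_insert allB anyB tb dig full rem allB_iff anyB_iff tb_eq full_testBit rem_testBit exists_mask)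
open Pool.Agent.TH222.RG
open Pool.Agent.Y425.CW (gr net ov net_sum_cut pts_sum_eq mem_gr)

variable {V E : Type} [Fintype V] [DecidableEq V] [Fintype E] [DecidableEq E]

/-! ## colours -/

/-- the value of a code -/
def val (c : ℕ) : Fin 5 → ZMod 2 := fun i => if (ms c).testBit i = true then 1 else 0

/-- the values allowed for an edge -/
def BS (S : Finset E) (e : E) : Set (Fin 5 → ZMod 2) :=
  {x | ∃ c, c < 10 ∧ (e ∈ S → c < 4) ∧ val c = x}

theorem rho_ok : (allB 24 fun g => allB 5 fun i => Nat.blt (rho g i) 5) = true := by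
  decide +kernel

theorem pt_ok : (allB 24 fun g => allB 10 fun c => Nat.blt (pt g c) 10 &&
    (cond (Nat.blt c 4) (Nat.blt (pt g c) 4) true && allB 5 fun i =>
    !(bne (Nat.beq (Nat.land (Nat.shiftRight (ms (pt g c)) i) 1) 1)
      (Nat.beq (Nat.land (Nat.shiftRight (ms c) (rho g i)) 1) 1)))) = true := by
  decide +kernel

theorem tb1 (m i : ℕ) : Nat.beq (Nat.land (Nat.shiftRight m i) 1) 1 = m.testBit i :=
  Pool.Agent.TH697.CW6.tb_eq m i

theorem xr_testBit (k : ℕ) (f : ℕ → ℕ) (j : ℕ) :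
    ∑ i ∈ range k, (if (f i).testBit j = true then (1 : ZMod 2) else 0) =
      if (xr k f).testBit j = true then 1 else 0 := by
  induction k with
  | zero => simp [xr]
  | succ k ih =>
    rw [sum_range_succ, ih]
    have h0 : xr (k + 1) f = f k ^^^ xr k f := rfl
    rw [h0, Nat.testBit_xor]
    cases (f k).testBit j <;> cases (xr k f).testBit j <;> decide

theorem sym_ok {g : ℕ} (hg : g < 24) : ∃ φ : (Fin 5 → ZMod 2) →+ (Fin 5 → ZMod 2), ∀ c < 10,
    pt g c < 10 ∧ (c < 4 → pt g c < 4) ∧ val (pt g c) = φ (val c) := by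
  have h1 := pt_ok
  have h2 := rho_ok
  rw [allB_iff] at h1 h2
  have h3 := h1 g hg
  have h4 := h2 g hg
  rw [allB_iff] at h3 h4
  have h5 : ∀ i < 5, rho g i < 5 := fun i hi => (blt_iff _ _).1 (h4 i hi)
  refine ⟨⟨⟨fun x i => x ⟨rho g i, h5 i i.2⟩, rfl⟩, fun x y => rfl⟩, ?_⟩
  intro c hc
  have h6 := h3 c hc
  rw [Bool.and_eq_true, Bool.and_eq_true, allB_iff, blt_iff] at h6
  obtain ⟨h6, h7, h8⟩ := h6
  refine ⟨h6, ?_, ?_⟩
  · intro h
    rw [(blt_iff _ _).2 h, cond_true, blt_iff] at h7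
    exact h7
  · funext i
    have h9 := h8 i i.2
    rw [tb1, tb1] at h9
    have h10 : (ms (pt g c)).testBit i = (ms c).testBit (rho g i) := by
      revert h9
      cases (ms (pt g c)).testBit i <;> cases (ms c).testBit (rho g i) <;> simp
    show val (pt g c) i = val c ⟨rho g i, h5 i i.2⟩
    unfold val
    rw [h10]

theorem BS_neg (S : Finset E) (e : E) : ∀ x ∈ BS S e, - x ∈ BS S e := by
  rintro x ⟨c, h1, h2, rfl⟩
  refine ⟨c, h1, h2, ?_⟩
  funext i
  show val c i = - val c i
  unfold val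
  split_ifs <;> decide

variable {s t : E → V} {hst : ∀ e, s e ≠ t e}

/-- the situation after the vertices of X have been placed -/
structure InvS (s t : E → V) (hst : ∀ e, s e ≠ t e) (S : Finset E) (X : Finset V) (T : ST)
    (o : ℕ → E) : Prop where
  inv : Inv (gr s t hst) 3 X ⟨T.bt.k, T.bt.par, 0, 0, T.bt.fs⟩ o
  ons : ∀ i < T.bt.k, (o i ∈ S ↔ i < T.s)
  lnk : ∀ i, 2 * i + 1 < T.s → Lk (gr s t hst) S X o T.bt.k (3 <<< (2 * i))
  cls : T.cl = true → ∀ e ∈ S, ∀ w ∈ (gr s t hst).ends e, w ∈ X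
  sts : ∀ j < T.bt.n, ∃ f, FlB (BS S) s t f X ∧
    ∀ i < T.bt.k, ov s X f (o i) = val (cd T.bt.st j i)

theorem act {S : Finset E} {X : Finset V} {o : ℕ → E} {g : ℕ} (hg : g < 24)
    {f : E → (Fin 5 → ZMod 2)} (hf : FlB (BS S) s t f X) {F : ℕ → ℕ} {k : ℕ}
    (hF : ∀ i < k, F i < 10) (ho : ∀ i < k, ov s X f (o i) = val (F i)) :
    ∃ f', FlB (BS S) s t f' X ∧ ∀ i < k, ov s X f' (o i) = val (pt g (F i)) := by
  obtain ⟨φ, hφ⟩ := sym_ok hg
  refine ⟨fun e => φ (f e), ⟨?_, ?_⟩, ?_⟩
  · intro e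
    obtain ⟨c, hc, hc4, h⟩ := hf.1 e
    exact ⟨pt g c, (hφ c hc).1, fun he => (hφ c hc).2.1 (hc4 he), by rw [(hφ c hc).2.2, h]⟩
  · intro w hw
    have h1 : net s t (fun e => φ (f e)) w = φ (net s t f w) := by
      unfold net
      rw [map_sum]
      refine sum_congr rfl fun e _ => ?_
      rw [map_sub]
      congr 1 <;> split_ifs <;> simp
    rw [h1, hf.2 w hw, map_zero]
  · intro i hi
    rw [(hφ _ (hF i hi)).2.2, ← ho i hi]
    unfold ov
    split_ifs <;> simp

structure OkS (T : ST) : Prop where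
  hk : T.bt.k ≤ 8
  hs : T.s ≤ T.bt.k
  h2 : T.s % 2 = 0
  hfs : ∀ Q ∈ T.bt.fs, Q.1 < 2 ^ T.bt.k
  hc : ∀ j < T.bt.n, ∀ i < T.bt.k, cd T.bt.st j i < 10
  hc4 : ∀ j < T.bt.n, ∀ i < T.s, cd T.bt.st j i < 4
  hz : ∀ j < T.bt.n, ∑ i ∈ range T.bt.k, val (cd T.bt.st j i) = 0

theorem okS_spec {T : ST} (h : okS T = true) : OkS T := by
  unfold okS at h
  simp only [Bool.and_eq_true, allB_iff, List.all_eq_true, ble_iff, blt_iff, beq_iff] at h
  obtain ⟨h1, h2, h3, h4, h5⟩ := h
  have hc : ∀ j < T.bt.n, ∀ i < T.bt.k, cd T.bt.st j i < 10 := by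
    intro j hj i hi
    have := (h5 j hj).1 i hi
    cases hb : Nat.blt i T.s
    · rw [hb, cond_false] at this; exact this
    · rw [hb, cond_true] at this; omega
  refine ⟨h1, h2, ?_, ?_, hc, ?_, ?_⟩
  · have e : Nat.land T.s 1 = T.s &&& 1 := rfl
    rw [e, Nat.and_one_is_mod] at h3
    exact h3
  · intro Q hQ
    have := h4 Q hQ
    have e : Nat.shiftLeft 1 T.bt.k = 1 <<< T.bt.k := rfl
    rw [e, Nat.one_shiftLeft] at this
    exact this
  · intro j hj i hi
    have := (h5 j hj).1 i (by omega)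
    rw [(blt_iff _ _).2 hi, cond_true] at this
    exact this
  · intro j hj
    have h6 := (h5 j hj).2
    funext i
    rw [Finset.sum_apply]
    show ∑ a ∈ range T.bt.k, val (cd T.bt.st j a) i = 0
    unfold val
    rw [xr_testBit T.bt.k (fun a => ms (cd T.bt.st j a)) i, h6, Nat.zero_testBit]
    rfl

/-! ## masks -/

theorem sw8_spec : ∀ m < 256, ∀ i < 8, (sw8 m).testBit i = m.testBit (i ^^^ 1) := by
  decide +kernel

theorem sw8_lt : ∀ m < 256, sw8 m < 256 := by
  decide +kernel

theorem pm_spec : ∀ J < 256, (J ||| sw8 J) =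
    ((cond (J.testBit 0 || J.testBit 1) (3 <<< 0) 0) ^^^
    (cond (J.testBit 2 || J.testBit 3) (3 <<< 2) 0)) ^^^
    ((cond (J.testBit 4 || J.testBit 5) (3 <<< 4) 0) ^^^
    (cond (J.testBit 6 || J.testBit 7) (3 <<< 6) 0)) := by
  decide +kernel

theorem three_testBit (p j : ℕ) : (3 <<< (2 * p)).testBit j = true ↔ j = 2 * p ∨ j = 2 * p + 1 := by
  rw [Nat.testBit_shiftLeft, Bool.and_eq_true, decide_eq_true_eq]
  constructor
  · rintro ⟨h1, h2⟩
    by_cases h3 : j - 2 * p < 2
    · omega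
    · exfalso
      have h4 : (3 : ℕ) < 2 ^ (j - 2 * p) := by
        calc (3 : ℕ) < 2 ^ 2 := by norm_num
          _ ≤ 2 ^ (j - 2 * p) := Nat.pow_le_pow_right (by norm_num) (by omega)
      rw [Nat.testBit_lt_two_pow h4] at h2
      exact absurd h2 (by simp)
  · rintro (h | h)
    · subst h
      exact ⟨le_refl _, by rw [Nat.sub_self]; decide⟩
    · subst h
      exact ⟨by omega, by rw [Nat.add_sub_cancel_left]; decide⟩

theorem two_testBit (x y z : ℕ) : (Nat.lor (Nat.shiftLeft 1 x) (Nat.shiftLeft 1 y)).testBit z = true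
    ↔ z = x ∨ z = y := by
  have e : Nat.lor (Nat.shiftLeft 1 x) (Nat.shiftLeft 1 y) =
    (Nat.shiftLeft 1 x) ||| (Nat.shiftLeft 1 y) := rfl
  rw [e, Nat.testBit_or, Bool.or_eq_true, one_shl_testBit, one_shl_testBit]

theorem jm_testBit (lm q i : ℕ) : (jm lm q).testBit i = true ↔ lm.testBit i = true ∧ i < q := by
  have e : jm lm q = lm &&& full q := rfl
  rw [e, Nat.testBit_and, full_testBit, Bool.and_eq_true, decide_eq_true_eq]

theorem xor_one (i p : ℕ) (h : i = 2 * p ∨ i = 2 * p + 1) : (i ^^^ 1 = 2 * p ∨ i ^^^ 1 = 2 * p + 1) ∧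
    i ^^^ 1 ≠ i := by
  have key : ∀ i : ℕ, i ^^^ 1 = if i % 2 = 0 then i + 1 else i - 1 := by
    intro i
    apply Nat.eq_of_testBit_eq
    intro j
    rw [Nat.testBit_xor]
    cases j with
    | zero =>
      rw [Nat.testBit_zero, Nat.testBit_zero, Nat.testBit_zero]
      split_ifs with h
      · have h1 : (i + 1) % 2 = 1 := by omega
        simp [h, h1]
      · have h1 : (i - 1) % 2 = 0 := by omega
        have h2 : i % 2 = 1 := by omega
        simp [h1, h2]
    | succ j =>
      rw [Nat.testBit_succ, Nat.testBit_succ, Nat.testBit_succ]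
      split_ifs with h
      · have h1 : (i + 1) / 2 = i / 2 := by omega
        simp [h1]
      · have h1 : (i - 1) / 2 = i / 2 := by omega
        simp [h1]
  have h1 := key i
  rcases h with h | h
  · rw [if_pos (by omega)] at h1; omega
  · rw [if_neg (by omega)] at h1; omega

variable {G : MGraph V E} {r : ℕ} {X : Finset V} {k : ℕ} {o : ℕ → E} {v : V} {lm m : ℕ} {n : ℕ → E}
  {S : Finset E}

/-- the degree of S at the new vertex -/
theorem dgS (C : Ctx G r X k o v lm m n) {q b : ℕ} (hb : b ≤ m) (hbS : ∀ j < m, (n j ∈ S ↔ j < b))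
    (ons : ∀ i < k, (o i ∈ S ↔ i < q)) : dg G S v = pc8 (jm lm q) + b := by
  have h1 : (S.filter fun e => v ∈ G.ends e) =
      ((S.filter fun e => v ∈ G.ends e) ∩ cut G X) ∪ (range b).image n := by
    ext e
    rw [mem_union, mem_inter, mem_filter, mem_image]
    constructor
    · rintro ⟨h1, h2⟩
      by_cases h3 : e ∈ cut G X
      · exact Or.inl ⟨⟨h1, h2⟩, h3⟩
      · obtain ⟨j, hj, h⟩ := C.hns e h2 h3
        refine Or.inr ⟨j, mem_range.2 ((hbS j hj).1 (by rw [h]; exact h1)), h⟩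
    · rintro (⟨h, _⟩ | ⟨j, hj, h⟩)
      · exact h
      · have hj' := mem_range.1 hj
        rw [← h]
        exact ⟨(hbS j (by omega)).2 hj', (C.hn j (by omega)).1⟩
  unfold dg
  rw [h1, card_union_of_disjoint]
  · congr 1
    · symm
      apply C.pts.card_ports C.hk
      · exact inter_subset_right
      · intro i
        rw [jm_testBit, C.hlm, mem_inter, mem_filter]
        constructor
        · rintro ⟨⟨h1, h2⟩, h3⟩
          exact ⟨h1, ⟨(ons i h1).2 h3, h2⟩, C.pts.mem i h1⟩
        · rintro ⟨h1, ⟨h2, h3⟩, _⟩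
          exact ⟨⟨h1, h3⟩, (ons i h1).1 h2⟩
    · rw [card_image_of_injOn, card_range]
      intro j hj j' hj' h
      rw [mem_coe, mem_range] at hj hj'
      exact C.hni j (by omega) j' (by omega) h
  · rw [disjoint_left]
    intro e h1 h2
    obtain ⟨j, hj, h⟩ := mem_image.1 h2
    have hj' := mem_range.1 hj
    rw [← h] at h1
    exact (C.hn j (by omega)).2 (mem_inter.1 h1).2

/-- both ends of a strand are joined to the new vertex: the circuit is closed -/
theorem closing (C : Ctx G r X k o v lm m n) {p : ℕ} (hL : Lk G S X o k (3 <<< (2 * p)))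
    (hp : 2 * p + 1 < k) (h0 : lm.testBit (2 * p) = true) (h1 : lm.testBit (2 * p + 1) = true)
    (hmin : ∀ Q ⊆ S, Q.Nonempty → (∀ w, Even (dg G Q w)) → Q = S) :
    (∀ i < k, (o i ∈ S ↔ (i = 2 * p ∨ i = 2 * p + 1))) ∧
      ∀ e ∈ S, ∀ w ∈ G.ends e, w ∈ insert v X := by
  obtain ⟨D, hD1, hD2, hD3, hD4⟩ := hL
  have hDp : ∀ i < k, (o i ∈ D ↔ (i = 2 * p ∨ i = 2 * p + 1)) := by
    intro i hi
    rw [hD4 i hi, three_testBit]
  have hin : ∀ e ∈ D, ∀ w ∈ G.ends e, w ∈ insert v X := by
    intro e he w hw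
    rw [mem_insert]
    by_contra hcon
    push Not at hcon
    -- the edge leaves X
    have h2 : e ∈ cut G X := cut_of_tch hcon.2 (hD3 e he) hw
    obtain ⟨i, hi, hie⟩ := C.pts.sur e h2
    have h3 := (hDp i hi).1 (by rw [hie]; exact he)
    have h4 : lm.testBit i = true := by
      rcases h3 with h3 | h3
      · rw [h3]; exact h0
      · rw [h3]; exact h1
    have h5 := ((C.hlm i).1 h4).2
    rw [hie] at h5
    obtain ⟨a, b, hab, hends⟩ := Pool.Agent.Helper347.Sab.exists_ends G e
    rw [cut_iff hends] at h2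
    rw [mem_ends_iff hends] at h5 hw
    have hvX := C.hv
    rcases h5 with h5 | h5 <;> rcases hw with hw | hw
    · exact hcon.1 (hw.trans h5.symm)
    · rcases h2 with ⟨g1, g2⟩ | ⟨g1, g2⟩
      · exact hvX (h5 ▸ g1)
      · exact hcon.2 (hw ▸ g1)
    · rcases h2 with ⟨g1, g2⟩ | ⟨g1, g2⟩
      · exact hcon.2 (hw ▸ g1)
      · exact hvX (h5 ▸ g1)
    · exact hcon.1 (hw.trans h5.symm)
  have hDS : D = S := by
    apply hmin D hD1 ⟨o (2 * p), (hDp (2 * p) (by omega)).2 (Or.inl rfl)⟩
    intro w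
    by_cases hw : w ∈ X
    · exact hD2 w hw
    · by_cases hwv : w = v
      · subst hwv
        have h2 : dg G D w = 2 := by
          unfold dg
          have h3 : (D.filter fun e => w ∈ G.ends e) = {o (2 * p), o (2 * p + 1)} := by
            ext e
            rw [mem_filter, mem_insert, mem_singleton]
            constructor
            · rintro ⟨g1, g2⟩
              obtain ⟨i, hi, hie⟩ := C.pts.sur e (cut_of_tch C.hv (hD3 e g1) g2)
              rcases (hDp i hi).1 (by rw [hie]; exact g1) with g3 | g3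
              · rw [← g3, hie]; exact Or.inl rfl
              · rw [← g3, hie]; exact Or.inr rfl
            · rintro (g | g)
              · rw [g]
                exact ⟨(hDp _ (by omega)).2 (Or.inl rfl), ((C.hlm _).1 h0).2⟩
              · rw [g]
                exact ⟨(hDp _ hp).2 (Or.inr rfl), ((C.hlm _).1 h1).2⟩
          rw [h3, card_pair]
          intro h
          have := C.pts.inj _ (by omega) _ hp h
          omega
        rw [h2]
        exact even_two
      · have h2 : dg G D w = 0 := by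
          unfold dg
          rw [card_eq_zero, filter_eq_empty_iff]
          intro e he hwe
          have := hin e he w hwe
          rw [mem_insert] at this
          rcases this with h | h
          · exact hwv h
          · exact hw h
        rw [h2]
        exact Even.zero
  rw [hDS] at hDp hin
  exact ⟨hDp, hin⟩

end Pool.Agent.Y425.SC
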