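import Pool.Agent.Y425.SC.Col

set_option autoImplicit false

/-!
# Boundary types for double covers of cubic graphs by five even subgraphs one of which contains a
given circuit: the checker

A type consists of a boundary type in the sense of Pool.Agent.TH222.RG.Chk (number of ports, parity,
number of states, packed states with 5 bits for each port, cuts inside the set), the number s of
ports on the circuit (these are the first s ports; the ports 2i and 2i + 1 are joined by a strand of
the circuit inside the set) and a flag that says that the circuit lies inside the set.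
-/

namespace Pool.Agent.Y425.SC

open Pool.Agent.TH697.CW6 (allB anyB dig full tb rem)
open Pool.Agent.TH222.RG (BT pc8 portsB factB exclB xorB patB)

structure ST where
  bt : BT
  s : ℕ
  cl : Bool

structure SE where
  lm : ℕ
  b : ℕ
  ti : ℕ
  c : ℕ
  ws : ℕ

/-- code of the port i in the state j -/
def cd (st j i : ℕ) : ℕ :=
  Nat.land (Nat.shiftRight st (Nat.add (Nat.mul 30 j) (Nat.mul 5 i))) 31

noncomputable def stOK (st0 src g k' st' j c : ℕ) : Bool :=
  allB k' (fun i => cond (Nat.blt (dig c i) 8)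
    (Nat.beq (pt g (cd st0 src (dig c i))) (cd st' j i)) true)

noncomputable def statesS (t : BT) (n' st' k' c ws : ℕ) : Bool :=
  allB n' fun j =>
    let w := Nat.land (Nat.shiftRight ws (Nat.mul 20 j)) 1048575
    cond (Nat.blt (Nat.shiftRight w 8) t.n)
      (cond (Nat.blt (Nat.land w 255) 24)
        (stOK t.st (Nat.shiftRight w 8) (Nat.land w 255) k' st' j c) false) false

/-- the joined ports on the circuit -/
def jm (lm s : ℕ) : ℕ := Nat.land lm (full s)

/-- exchange of the bits 2i and 2i + 1 -/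
def sw8 (m : ℕ) : ℕ :=
  Nat.lor (Nat.shiftLeft (Nat.land m 85) 1) (Nat.land (Nat.shiftRight m 1) 85)

/-- both ports of a strand are joined -/
def clo (lm s : ℕ) : Bool := !(Nat.beq (Nat.land (jm lm s) (sw8 (jm lm s))) 0)

/-- places of the ports of the strand through the new vertex -/
def thr (lm s b : ℕ) : ℕ := Nat.lor (rem (sw8 (jm lm s)) (jm lm s)) (Nat.shiftLeft (full b) 8)

noncomputable def linkB (lm s b s' c : ℕ) : Bool :=
  allB (Nat.shiftRight s' 1) fun i =>
    let m := Nat.lor (Nat.shiftLeft 1 (dig c (Nat.mul 2 i)))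
      (Nat.shiftLeft 1 (dig c (Nat.succ (Nat.mul 2 i))))
    Nat.beq m (thr lm s b) || anyB (Nat.shiftRight s 1) fun p => Nat.beq m (Nat.shiftLeft 3 (Nat.mul 2 p))

noncomputable def portsC (s b k' s' c : ℕ) : Bool :=
  allB k' fun i => !(xorB (Nat.blt i s')
    (cond (Nat.blt (dig c i) 8) (Nat.blt (dig c i) s) (Nat.blt (dig c i) (Nat.add 8 b))))

noncomputable def chkE (tbl : ℕ → ST) (t : ST) (e : SE) : Bool :=
  match tbl e.ti with
  | ⟨⟨k', par', n', st', fs'⟩, s', cl'⟩ =>
    Nat.beq (Nat.add k' (Nat.mul 2 (pc8 e.lm))) (Nat.add t.bt.k 3) &&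
      (xorB par' t.bt.par && (portsB 3 t.bt.k e.lm k' e.c &&
        ((fs'.all fun P => factB 3 t.bt e.lm k' e.c P) && (portsC t.s e.b k' s' e.c &&
          (linkB e.lm t.s e.b s' e.c && (cond cl' (t.cl || clo e.lm t.s) true &&
            statesS t.bt n' st' k' e.c e.ws))))))

/-- a type is well formed -/
noncomputable def okS (t : ST) : Bool :=
  Nat.ble t.bt.k 8 && (Nat.ble t.s t.bt.k && (Nat.beq (Nat.land t.s 1) 0 &&
    ((t.bt.fs.all fun P => Nat.blt P.1 (Nat.shiftLeft 1 t.bt.k)) &&
    allB t.bt.n fun j => (allB t.bt.k fun i =>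
      Nat.blt (cd t.bt.st j i) (cond (Nat.blt i t.s) 4 10)) &&
      Nat.beq (xr t.bt.k fun i => ms (cd t.bt.st j i)) 0)))

noncomputable def exclS (t : ST) (lm b : ℕ) : Bool :=
  exclB 3 t.bt lm || (!(Nat.beq (Nat.add (pc8 (jm lm t.s)) b) 0 ||
    Nat.beq (Nat.add (pc8 (jm lm t.s)) b) 2) || ((t.cl && Nat.blt 0 b) ||
      (clo lm t.s && !(Nat.beq t.s 2))))

noncomputable def chkST (w : ℕ) (tbl : ℕ → ST) (t : ST) (es : List SE) : Bool :=
  okS t && (es.all (fun e => chkE tbl t e) && allB (Nat.shiftLeft 1 t.bt.k) fun lm =>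
    cond (patB 3 w t.bt.k lm) (allB 4 fun b => cond (Nat.ble (Nat.add b (pc8 lm)) 3)
      (exclS t lm b || es.any fun e => Nat.beq e.lm lm && Nat.beq e.b b) true) true)

end Pool.Agent.Y425.SC
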